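import Pool.Agent.Lib.MP_11f292_co.Main

set_option autoImplicit false

open scoped Real UpperHalfPlane

namespace Pool.Agent.HypPack

/-- explicit form of `final` -/
theorem final_explicit
    (deg6 : ∀ (S : Finset ℍ) (h κ : ℝ), Hyp S h κ → ∀ x ∈ S, ndeg S h κ x ≤ 6)
    (C : ℝ) (hC : 0 < C)
    (main : ∀ (S : Finset ℍ) (h κ : ℝ), Hyp S h κ →
      (S.card : ℝ) ≤ C * (∑ x ∈ S, (5 - (cdeg S h x : ℝ)) + 7 * (interCard S h κ : ℝ)))
    (M : ℕ) (hM : 84 * C + 1 ≤ M) (r : ℝ) (hr : 0 < r)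
    (hhle : Real.cosh (2 * r) - 1 ≤ 1 / (10 ^ 36 * 1000 ^ (2 * M))) (S : Finset UpperHalfPlane)
    (hS : ∀ x ∈ S, ∀ y ∈ S, x ≠ y → 2 * r ≤ dist x y) :
    (∑ x ∈ S, ((S.filter (fun y => dist x y = 2 * r)).card : ℝ))
              ≤ (5 - 1 / (2 * C)) * (S.card : ℝ) := by
  have hM0 : (0 : ℝ) < M := by linarith
  classical
  set h : ℝ := Real.cosh (2 * r) - 1 with hh
  have hhpos : 0 < h := by
    have : 1 < Real.cosh (2 * r) := Real.one_lt_cosh.mpr (by positivity)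
    linarith
  have sep : ∀ x ∈ S, ∀ y ∈ S, x ≠ y → 1 ≤ R h x y := by
    intro x hx y hy hxy
    rw [R, le_div_iff₀ hhpos, one_mul, hh]
    have h1 : Real.cosh (2 * r) ≤ Real.cosh (dist x y) := by
      rw [Real.cosh_le_cosh, abs_of_pos (by positivity), abs_of_nonneg dist_nonneg]
      exact hS x hx y hy hxy
    linarith
  have hyp : ∀ j ≤ M, Hyp S h (kap h j) := fun j hj => hyp_kap hhpos M j hj hhle sep
  -- contact degrees
  have hcd : ∀ x ∈ S, ((S.filter (fun y => dist x y = 2 * r)).card : ℝ) = (cdeg S h x : ℝ) := by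
    intro x hx
    rw [cdeg]
    congr 1
    refine congrArg Finset.card ?_
    ext y
    rw [Finset.mem_filter, Finset.mem_filter]
    constructor
    · rintro ⟨hy, hd⟩
      refine ⟨hy, hx, hy, ?_, ?_⟩
      · rintro rfl
        rw [dist_self] at hd
        linarith
      · rw [R, hd]
        exact div_self hhpos.ne'
    · rintro ⟨hy, -, -, -, hR⟩
      refine ⟨hy, ?_⟩
      rw [R, div_eq_one_iff_eq hhpos.ne', hh] at hR
      have h1 : Real.cosh (dist x y) = Real.cosh (2 * r) := by linarith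
      have h2 := Real.cosh_injOn (show dist x y ∈ Set.Ici 0 from dist_nonneg)
        (show 2 * r ∈ Set.Ici 0 by show 0 ≤ 2 * r; positivity) h1
      exact h2
  rw [Finset.sum_congr rfl hcd]
  -- pigeonhole
  have hsum := sum_inter_le hhpos M (deg6 S h _ (hyp M le_rfl))
  obtain ⟨j, hj, hjle⟩ : ∃ j ∈ Finset.range M,
      (interCard S h (kap h j) : ℝ) ≤ 6 * S.card / M := by
    by_contra hcon
    push Not at hcon
    have h1 : ∑ j ∈ Finset.range M, (6 * (S.card : ℝ) / M) <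
        ∑ j ∈ Finset.range M, (interCard S h (kap h j) : ℝ) := by
      apply Finset.sum_lt_sum_of_nonempty
      · rw [Finset.nonempty_range_iff]
        rintro rfl
        simp at hM0
      · exact hcon
    rw [Finset.sum_const, Finset.card_range, nsmul_eq_mul, mul_div_cancel₀ _ hM0.ne'] at h1
    have h2 : ((∑ j ∈ Finset.range M, interCard S h (kap h j) : ℕ) : ℝ) ≤ ((6 * S.card : ℕ) : ℝ) := by
      exact_mod_cast hsum
    push_cast at h2
    linarith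
  have hm := main S h (kap h j) (hyp j (Finset.mem_range.mp hj).le)
  rw [Finset.sum_sub_distrib, Finset.sum_const, nsmul_eq_mul] at hm
  set s : ℝ := (S.card : ℝ) with hs
  set E : ℝ := ∑ x ∈ S, (cdeg S h x : ℝ) with hE
  have hs0 : 0 ≤ s := by positivity
  have h3 : C * (6 * s / M) ≤ s / 14 := by
    rw [mul_div_assoc', div_le_div_iff₀ hM0 (by norm_num)]
    nlinarith
  have h4 : C * (interCard S h (kap h j) : ℝ) ≤ s / 14 :=
    (mul_le_mul_of_nonneg_left hjle hC.le).trans h3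
  have h5 : C * E ≤ 5 * C * s - s / 2 := by nlinarith
  have h6 : (5 - 1 / (2 * C)) * s = (5 * C * s - s / 2) / C := by
    field_simp
  rw [h6, le_div_iff₀ hC]
  linarith


theorem explicit (r : ℝ) (hr : 0 < r) (hr1 : r ≤ (10 : ℝ) ^ (-(10 : ℝ) ^ (29 : ℝ))) (S : Finset UpperHalfPlane)
    (hS : ∀ x ∈ S, ∀ y ∈ S, x ≠ y → 2 * r ≤ dist x y) :
    (∑ x ∈ S, ((S.filter (fun y => dist x y = 2 * r)).card : ℝ))
              ≤ (5 - 1 / (2 * 10 ^ 26)) * (S.card : ℝ) := by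
  obtain ⟨M, hMdef⟩ : ∃ M : ℕ, (M : ℝ) = 10 ^ 28 := ⟨10 ^ 28, by norm_num⟩
  refine final_explicit (fun _ _ _ H x hx => ndeg_le_six H x hx) (10 ^ 26) (by norm_num) main_bound
    M (by rw [hMdef]; norm_num) r hr ?_ S hS
  have h29 : (10 : ℝ) ^ (29 : ℝ) = 10 ^ 29 := by
    rw [← Real.rpow_natCast]; norm_num
  rw [h29] at hr1
  have e1 : Real.cosh (2 * r) ≤ Real.exp ((2 * r) ^ 2 / 2) := Real.cosh_le_exp_half_sq _
  have hr2 : r ≤ 1 / 10 := by
    refine hr1.trans ?_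
    have : (10 : ℝ) ^ (-(10 : ℝ) ^ 29) ≤ (10 : ℝ) ^ (-1 : ℝ) :=
      Real.rpow_le_rpow_of_exponent_le (by norm_num) (by norm_num)
    rw [Real.rpow_neg_one] at this
    linarith
  have e2 : Real.exp ((2 * r) ^ 2 / 2) ≤ 1 + 2 * ((2 * r) ^ 2 / 2) := by
    have hu : |(2 * r) ^ 2 / 2| ≤ 1 := by
      rw [abs_of_nonneg (by positivity)]; nlinarith
    have := Real.abs_exp_sub_one_le hu
    rw [abs_of_nonneg (show (0:ℝ) ≤ (2 * r) ^ 2 / 2 by positivity)] at this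
    have := (le_abs_self _).trans this
    linarith
  have e3 : Real.cosh (2 * r) - 1 ≤ 4 * r ^ 2 := by nlinarith
  refine e3.trans ?_
  have e4 : r ^ 2 ≤ (10 : ℝ) ^ (-(2 * (10 : ℝ) ^ 29)) := by
    have : r ^ 2 ≤ ((10 : ℝ) ^ (-(10 : ℝ) ^ 29)) ^ 2 := pow_le_pow_left₀ hr.le hr1 2
    refine this.trans (le_of_eq ?_)
    rw [← Real.rpow_natCast, ← Real.rpow_mul (by norm_num)]
    congr 1
    push_cast; ring
  have e5 : (1 : ℝ) / (10 ^ 36 * 1000 ^ (2 * M)) = (10 : ℝ) ^ (-(36 + 6 * (10 : ℝ) ^ 28)) := by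
    have h1 : (1000 : ℝ) ^ (2 * M) = (10 : ℝ) ^ (6 * (10 : ℝ) ^ 28) := by
      rw [show (1000 : ℝ) = 10 ^ 3 by norm_num, ← pow_mul, ← Real.rpow_natCast]
      congr 1
      push_cast
      rw [hMdef]; ring
    have h2 : (10 : ℝ) ^ 36 = (10 : ℝ) ^ (36 : ℝ) := by
      rw [← Real.rpow_natCast]; norm_num
    rw [h1, h2, ← Real.rpow_add (by norm_num), Real.rpow_neg (by norm_num), one_div]
  rw [e5]
  have e6 : (4 : ℝ) ≤ (10 : ℝ) ^ (1 : ℝ) := by rw [Real.rpow_one]; norm_num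
  calc 4 * r ^ 2 ≤ (10 : ℝ) ^ (1 : ℝ) * (10 : ℝ) ^ (-(2 * (10 : ℝ) ^ 29)) :=
        mul_le_mul e6 e4 (by positivity) (by positivity)
    _ = (10 : ℝ) ^ ((1 : ℝ) + (-(2 * (10 : ℝ) ^ 29))) := by rw [Real.rpow_add (by norm_num)]
    _ ≤ _ := Real.rpow_le_rpow_of_exponent_le (by norm_num) (by norm_num)

end Pool.Agent.HypPack
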