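import Pool.Agent.Lib.MP_11f292_co.Mg.G001
import Pool.Agent.Lib.MP_11f292_co.Mg.G003

set_option autoImplicit false

open scoped Real UpperHalfPlane
open InnerProductGeometry

namespace Pool.Agent.HypPack

/-- an induced near 4-cycle -/
def Rh4 (nr : ℍ → ℍ → Prop) (x y w z : ℍ) : Prop :=
  nr x y ∧ nr y w ∧ nr w z ∧ nr z x ∧ x ≠ w ∧ y ≠ z ∧ ¬ nr x w ∧ ¬ nr y z

theorem near_symm {S : Finset ℍ} {h κ : ℝ} {x y : ℍ} (H : Near S h κ x y) : Near S h κ y x :=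
  ⟨H.2.1, H.1, H.2.2.1.symm, by rw [R_comm]; exact H.2.2.2⟩

/-- norm of a chart image of a near point -/
theorem gs_norm {h κ a : ℝ} (hh : 0 < h) (hk : 10 ^ 6 * h ≤ κ) (kle : κ ≤ 1 / 10 ^ 30)
    (h1 : 1 ≤ a) (h2 : a ≤ 1 + κ) : 1 ≤ a + h / 2 * a ^ 2 ∧ a + h / 2 * a ^ 2 ≤ 1 + 2 * κ := by
  have hκ : 0 < κ := by linarith
  have ha2 : a ^ 2 ≤ 2 := by
    have : a ≤ 11 / 10 := by
      have : (1 : ℝ) / 10 ^ 30 ≤ 1 / 10 := by norm_num
      linarith
    nlinarith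
  constructor
  · have : 0 ≤ h / 2 * a ^ 2 := by positivity
    linarith
  · have : h / 2 * a ^ 2 ≤ h / 2 * 2 := mul_le_mul_of_nonneg_left ha2 (by linarith)
    have : h ≤ κ := by linarith
    linarith

/-- real core of the cosine estimate -/
theorem gs_cos {h κ a b d na nb c : ℝ} (hh : 0 < h) (hk : 10 ^ 6 * h ≤ κ) (kle : κ ≤ 1 / 10 ^ 30)
    (ha : 1 ≤ a) (ha' : a ≤ 1 + κ) (hb : 1 ≤ b) (hb' : b ≤ 1 + κ)
    (na0 : 0 ≤ na) (nb0 : 0 ≤ nb) (hna : na ^ 2 = a + h / 2 * a ^ 2)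
    (hnb : nb ^ 2 = b + h / 2 * b ^ 2) (hc1 : -1 ≤ c) (hc2 : c ≤ 1)
    (law : c * (2 * (na * nb)) = a + b - d + h * a * b) :
    |2 * c - (2 - d)| ≤ 8 * κ := by
  have hκ : 0 < κ := by linarith
  obtain ⟨p1, p2⟩ := gs_norm hh hk kle ha ha'
  obtain ⟨q1, q2⟩ := gs_norm hh hk kle hb hb'
  rw [← hna] at p1 p2
  rw [← hnb] at q1 q2
  have a1 := one_le_of_sq na0 p1
  have b1 := one_le_of_sq nb0 q1
  have ab1 : 1 ≤ na * nb := one_le_mul_of_one_le_of_one_le a1 b1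
  have ab2 : na * nb ≤ 1 + 2 * κ := by nlinarith [sq_nonneg (na - nb)]
  have hab : a * b ≤ 2 := by
    have h1 : a ≤ 11 / 10 := by
      have : (1 : ℝ) / 10 ^ 30 ≤ 1 / 10 := by norm_num
      linarith
    have h2 : b ≤ 11 / 10 := by
      have : (1 : ℝ) / 10 ^ 30 ≤ 1 / 10 := by norm_num
      linarith
    nlinarith
  have hab0 : 0 ≤ h * a * b := by positivity
  have hab2 : h * a * b ≤ κ := by
    have : h * (a * b) ≤ h * 2 := mul_le_mul_of_nonneg_left hab hh.le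
    have h3 : h * a * b = h * (a * b) := by ring
    rw [h3]; linarith
  have e1 : 2 * c - (2 - d) = -(c * (2 * (na * nb - 1))) + (a - 1 + (b - 1) + h * a * b) := by
    linear_combination law
  have e2 : |c * (2 * (na * nb - 1))| ≤ 1 * (4 * κ) := by
    rw [abs_mul]
    apply mul_le_mul (abs_le.mpr ⟨hc1, hc2⟩) _ (abs_nonneg _) (by norm_num)
    rw [abs_of_nonneg (by linarith)]; linarith
  rw [e1]
  obtain ⟨f1, f2⟩ := abs_le.mp e2
  rw [abs_le]; constructor <;> linarith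

theorem gs_R_le {h κ : ℝ} (hh : 0 < h) (hk : 10 ^ 6 * h ≤ κ) (kle : κ ≤ 1 / 10 ^ 30) {x y w : ℍ}
    (h1 : 1 ≤ R h x y) (h2 : R h x y ≤ 1 + κ) (h3 : 1 ≤ R h y w) (h4 : R h y w ≤ 1 + κ) :
    R h x w ≤ 5 := by
  have c := chart hh y x w
  have n1 := norm_P_sq hh y x
  have n2 := norm_P_sq hh y w
  rw [R_comm h y x] at n1 c
  have g1 := (gs_norm hh hk kle h1 h2).2
  have g2 := (gs_norm hh hk kle h3 h4).2
  rw [← n1] at g1
  rw [← n2] at g2
  have t := parallelogram_law_with_norm ℝ (P h y x) (P h y w)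
  have : 0 ≤ h / 2 * (R h x y - R h y w) ^ 2 := by positivity
  have k : (1 : ℝ) / 10 ^ 30 ≤ 1 / 100 := by norm_num
  nlinarith [mul_self_nonneg ‖P h y x + P h y w‖]

theorem cos_five_pi_six_lt : Real.cos (5 * π / 6) < -(6 / 10) := by
  have : 5 * π / 6 = π - π / 6 := by ring
  rw [this, Real.cos_pi_sub, Real.cos_pi_div_six]
  have : (172 / 100 : ℝ) ≤ Real.sqrt 3 := Real.le_sqrt_of_sq_le (by norm_num)
  linarith

theorem gs_up {κ s t : ℝ} (hκ : 0 < κ) (hk : κ ≤ 1 / 10 ^ 6)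
    (htp : t ≤ π) (ht : π / 3 - 2 * (2 * κ) ≤ t) (hsp : s ≤ π)
    (hst : -(12 * κ) ≤ Real.cos s + Real.cos t) : s ≤ 5 * π / 6 := by
  have hpi := Real.pi_gt_three
  norm_num at hk
  by_contra hcon
  push Not at hcon
  have q1 := Real.cos_lt_cos_of_nonneg_of_le_pi (by linarith) hsp hcon
  have q2 := cos_five_pi_six_lt
  have q3 : Real.cos t ≤ Real.cos (π / 3 - 2 * (2 * κ)) :=
    Real.cos_le_cos_of_nonneg_of_le_pi (by linarith) htp ht
  have q4 := abs_le.mp (Real.abs_cos_sub_cos_le (π / 3 - 2 * (2 * κ)) (π / 3))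
  rw [Real.cos_pi_div_three] at q4
  have q5 : |π / 3 - 2 * (2 * κ) - π / 3| = 4 * κ := by
    have : π / 3 - 2 * (2 * κ) - π / 3 = -(4 * κ) := by ring
    rw [this, abs_neg, abs_of_nonneg (by linarith)]
  rw [q5] at q4
  linarith [q4.2]

theorem gs_angles {κ A B : ℝ} (hκ : 0 < κ) (hk : κ ≤ 1 / 10 ^ 6) (hA0 : 0 ≤ A)
    (hAp : A ≤ π) (hB0 : 0 ≤ B) (hBp : B ≤ π) (hA1 : π / 3 - 2 * (2 * κ) ≤ A)
    (hB1 : π / 3 - 2 * (2 * κ) ≤ B) (hcos : |Real.cos A + Real.cos B| ≤ 12 * κ) :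
    |π - A - B| ≤ 48 * κ := by
  have hpi := Real.pi_gt_three
  have hpi4 := Real.pi_le_four
  obtain ⟨hc1, hc2⟩ := abs_le.mp hcos
  have hA2 := gs_up hκ hk hBp hB1 hAp hc1
  have hB2 := gs_up hκ hk hAp hA1 hBp (by rw [add_comm]; exact hc1)
  norm_num at hk
  rw [Real.cos_add_cos] at hcos
  have hhalf : 1 / 2 ≤ Real.cos ((A - B) / 2) := by
    rw [← Real.cos_abs, ← Real.cos_pi_div_three]
    apply Real.cos_le_cos_of_nonneg_of_le_pi (abs_nonneg _) (by linarith)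
    rw [abs_le]; constructor <;> linarith
  have hcs : |Real.cos ((A + B) / 2)| ≤ 12 * κ := by
    rw [abs_mul, abs_mul, abs_of_nonneg (by norm_num : (0:ℝ) ≤ 2),
      abs_of_nonneg (by linarith : 0 ≤ Real.cos ((A - B) / 2))] at hcos
    nlinarith [abs_nonneg (Real.cos ((A + B) / 2))]
  -- |cos t| = |sin (π/2 - t)| ≥ 2/π |π/2 - t|
  have hsin : |Real.sin (π / 2 - (A + B) / 2)| ≤ 12 * κ := by
    rw [Real.sin_pi_div_two_sub]; exact hcs
  have hfin : 2 / π * |π / 2 - (A + B) / 2| ≤ 12 * κ := by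
    rcases abs_cases (π / 2 - (A + B) / 2) with ⟨e, he⟩ | ⟨e, he⟩
    · have := Real.mul_le_sin he (by linarith)
      rw [e]
      exact this.trans ((le_abs_self _).trans hsin)
    · have := Real.mul_le_sin (x := -(π / 2 - (A + B) / 2)) (by linarith) (by linarith)
      rw [e]
      refine this.trans (le_trans ?_ hsin)
      rw [Real.sin_neg]
      exact neg_le_abs _
  have hfin2 : |π / 2 - (A + B) / 2| ≤ 24 * κ := by
    have h1 : 2 / π * |π / 2 - (A + B) / 2| * π = 2 * |π / 2 - (A + B) / 2| := by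
      field_simp
    have h2 : 2 / π * |π / 2 - (A + B) / 2| * π ≤ 12 * κ * 4 := by
      apply mul_le_mul hfin hpi4 (by linarith) (by linarith)
    rw [h1] at h2
    linarith
  have h3 : π - A - B = 2 * (π / 2 - (A + B) / 2) := by ring
  rw [h3, abs_mul, abs_of_nonneg (by norm_num : (0:ℝ) ≤ 2)]
  linarith

theorem rh4_angle {S : Finset ℍ} {h κ : ℝ} (H : Hyp S h κ) {x y w z : ℍ}
    (hr : Rh4 (Near S h κ) x y w z) : |π - ang h x y z - ang h y x w| ≤ 1 / 10 ^ 27 := by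
  obtain ⟨xy, yw, wz, zx, hxw, hyz, -, -⟩ := hr
  have hh := H.hpos
  have hk := H.hk
  have kle := H.kle
  have hκ : 0 < κ := by linarith
  have ksmall : (1 : ℝ) / 10 ^ 30 ≤ 1 / 10 ^ 6 := by norm_num
  have a1 := H.sep x xy.1 y xy.2.1 xy.2.2.1
  have a2 := xy.2.2.2
  have b1 := H.sep y yw.1 w yw.2.1 yw.2.2.1
  have b2 := yw.2.2.2
  have c1 := H.sep w wz.1 z wz.2.1 wz.2.2.1
  have c2 := wz.2.2.2
  have d1 := H.sep z zx.1 x zx.2.1 zx.2.2.1
  have d2 := zx.2.2.2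
  rw [R_comm] at d1 d2
  have e1 := H.sep x xy.1 w wz.1 hxw
  have f1 := H.sep y xy.2.1 z wz.2.1 hyz
  have e5 := gs_R_le hh hk kle a1 a2 b1 b2
  -- chart at x
  have nY := norm_P_sq hh x y
  have nZ := norm_P_sq hh x z
  have nW := norm_P_sq hh x w
  have cYZ := chart hh x y z
  have cWY := chart hh x w y
  have cWZ := chart hh x w z
  rw [R_comm h w y] at cWY
  obtain ⟨y1, y2⟩ := gs_norm hh hk kle a1 a2
  obtain ⟨z1, z2⟩ := gs_norm hh hk kle d1 d2
  have hsq : ∀ t : ℝ, 0 ≤ h / 2 * t ^ 2 := fun t => by positivity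
  have hsq2 : ∀ t : ℝ, t ^ 2 ≤ 25 → h / 2 * t ^ 2 ≤ κ := fun t ht => by
    have : h / 2 * t ^ 2 ≤ h / 2 * 25 := mul_le_mul_of_nonneg_left ht (by linarith)
    linarith
  have r1 : (R h x w - R h x y) ^ 2 ≤ 25 := by
    apply (sq_le_sq' _ _).trans (by norm_num : (5 : ℝ) ^ 2 ≤ 25) <;> linarith
  have r2 : (R h x w - R h x z) ^ 2 ≤ 25 := by
    apply (sq_le_sq' _ _).trans (by norm_num : (5 : ℝ) ^ 2 ≤ 25) <;> linarith
  have r3 : (R h x y - R h x z) ^ 2 ≤ 25 := by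
    apply (sq_le_sq' _ _).trans (by norm_num : (5 : ℝ) ^ 2 ≤ 25) <;> linarith
  have r4 : (R h x w) ^ 2 ≤ 25 := by
    apply (sq_le_sq' _ _).trans (by norm_num : (5 : ℝ) ^ 2 ≤ 25) <;> linarith
  have s1 := hsq (R h x w - R h x y)
  have s2 := hsq (R h x w - R h x z)
  have s3 := hsq (R h x y - R h x z)
  have s4 := hsq (R h x w)
  have t1 := hsq2 _ r1
  have t2 := hsq2 _ r2
  have t3 := hsq2 _ r3
  have t4 := hsq2 _ r4
  have Q := quad_le (P h x y) (P h x z) (P h x w)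
  have rp := rhomb_pos (ε := 2 * κ) (by linarith) (by linarith) (Y := P h x y) (Z := P h x z)
    (W := P h x w) (by rw [nY]; linarith) (by rw [nY]; linarith) (by rw [nZ]; linarith)
    (by rw [nZ]; linarith) (by rw [cWY]; linarith) (by rw [cWY]; linarith) (by rw [cWZ]; linarith)
    (by rw [cWZ]; linarith) (by rw [nW]; linarith) (by rw [cYZ]; linarith)
  have rp0 : 0 ≤ ‖P h x w - (P h x y + P h x z)‖ ^ 2 := by positivity
  have k2 : 100 * (2 * κ) ^ 2 ≤ κ := by nlinarith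
  have D : |R h y z + R h x w - 4| ≤ 8 * κ := by
    rw [nY, nZ, nW, cYZ, cWY, cWZ] at Q
    rw [abs_le]; constructor <;> linarith
  -- law of cosines
  have l1 := law hh x y z
  have l2 := law hh y x w
  have g1 := gs_cos hh hk kle a1 a2 d1 d2 (norm_nonneg _) (norm_nonneg _) nY nZ
    (Real.neg_one_le_cos _) (Real.cos_le_one _) l1
  have nYX := norm_P_sq hh y x
  have nYW := norm_P_sq hh y w
  have a1' := a1
  have a2' := a2
  rw [R_comm] at a1' a2'
  have g2 := gs_cos hh hk kle a1' a2' b1 b2 (norm_nonneg _) (norm_nonneg _) nYX nYW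
    (Real.neg_one_le_cos _) (Real.cos_le_one _) l2
  have hA1 : π / 3 - 2 * (2 * κ) ≤ ang h x y z :=
    angle_ge (by linarith) (by linarith) (by rw [nY]; linarith) (by rw [nY]; linarith)
      (by rw [nZ]; linarith) (by rw [nZ]; linarith) (by rw [cYZ]; linarith)
  have hB1 : π / 3 - 2 * (2 * κ) ≤ ang h y x w := by
    obtain ⟨u1, u2⟩ := gs_norm hh hk kle a1' a2'
    obtain ⟨v1, v2⟩ := gs_norm hh hk kle b1 b2
    refine angle_ge (by linarith) (by linarith) (by rw [nYX]; linarith) (by rw [nYX]; linarith)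
      (by rw [nYW]; linarith) (by rw [nYW]; linarith) ?_
    rw [chart hh y x w]
    have := hsq (R h y x - R h y w)
    linarith
  have hAp : ang h x y z ≤ π := angle_le_pi _ _
  have hBp : ang h y x w ≤ π := angle_le_pi _ _
  have hA0 : 0 ≤ ang h x y z := angle_nonneg _ _
  have hB0 : 0 ≤ ang h y x w := angle_nonneg _ _
  obtain ⟨D1, D2⟩ := abs_le.mp D
  obtain ⟨g11, g12⟩ := abs_le.mp g1
  obtain ⟨g21, g22⟩ := abs_le.mp g2
  have hcos : |Real.cos (ang h x y z) + Real.cos (ang h y x w)| ≤ 12 * κ := by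
    rw [abs_le]; constructor <;> linarith
  have fin := gs_angles hκ (by linarith) hA0 hAp hB0 hBp hA1 hB1 hcos
  have : (48 : ℝ) * (1 / 10 ^ 30) ≤ 1 / 10 ^ 27 := by norm_num
  linarith

theorem rh4_swap {S : Finset ℍ} {h κ : ℝ} {x y w z : ℍ} (hr : Rh4 (Near S h κ) x y w z) :
    Rh4 (Near S h κ) y x z w := by
  obtain ⟨xy, yw, wz, zx, hxw, hyz, n1, n2⟩ := hr
  exact ⟨near_symm xy, near_symm zx, near_symm wz, near_symm yw, hyz, hxw, n2, n1⟩

theorem rh4_RH {S : Finset ℍ} {h κ : ℝ} {x y w z : ℍ} (hr : Rh4 (Near S h κ) x y w z) :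
    RH (Near S h κ) x y z := by
  obtain ⟨xy, yw, wz, zx, hxw, hyz, n1, n2⟩ := hr
  exact ⟨xy, near_symm zx, hyz, n2, w, hxw.symm, near_symm yw, wz, n1⟩

open Classical in
theorem RH_sum_w {S : Finset ℍ} {h κ : ℝ}
    (common : ∀ y z a b c, y ≠ z → a ≠ b → a ≠ c → b ≠ c → Near S h κ y a → Near S h κ z a →
      Near S h κ y b → Near S h κ z b → Near S h κ y c → Near S h κ z c → False)
    (x y z : ℍ) (t : ℝ) :
    (if RH (Near S h κ) x y z then t else 0) =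
      ∑ w ∈ S, if Rh4 (Near S h κ) x y w z then t else 0 := by
  by_cases hr : RH (Near S h κ) x y z
  · rw [if_pos hr]
    obtain ⟨xy, xz, hyz, nyz, w, hwx, wy, wz, nxw⟩ := hr
    rw [Finset.sum_eq_single w]
    · rw [if_pos]
      exact ⟨xy, near_symm wy, wz, near_symm xz, hwx.symm, hyz, nxw, nyz⟩
    · intro w' _ hw'
      rw [if_neg]
      rintro ⟨-, yw', wz', -, hxw', -, -, -⟩
      exact common y z x w w' hyz hwx.symm hxw' hw'.symm (near_symm xy) (near_symm xz)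
        (near_symm wy) (near_symm wz) yw' (near_symm wz')
    · intro hw
      exact absurd wy.1 hw
  · rw [if_neg hr]
    symm
    apply Finset.sum_eq_zero
    intro w _
    rw [if_neg]
    intro h4
    exact hr (rh4_RH h4)

open Classical in
theorem RH_count {S : Finset ℍ} {h κ : ℝ} (deg6 : ∀ x ∈ S, ndeg S h κ x ≤ 6) (x : ℍ)
    (hx : x ∈ S) :
    ∑ y ∈ S, ∑ z ∈ S, (if RH (Near S h κ) x y z then (1 : ℝ) else 0) ≤ 36 := by
  have e : ∑ y ∈ S, (if Near S h κ x y then (1 : ℝ) else 0) = (ndeg S h κ x : ℝ) := by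
    rw [Finset.sum_boole]; rfl
  have h6 : (ndeg S h κ x : ℝ) ≤ 6 := by exact_mod_cast deg6 x hx
  have h0 : (0 : ℝ) ≤ (ndeg S h κ x : ℝ) := Nat.cast_nonneg _
  calc ∑ y ∈ S, ∑ z ∈ S, (if RH (Near S h κ) x y z then (1 : ℝ) else 0)
      ≤ ∑ y ∈ S, ∑ z ∈ S, (if Near S h κ x y then (1 : ℝ) else 0) *
          (if Near S h κ x z then (1 : ℝ) else 0) := by
        apply Finset.sum_le_sum
        intro y _
        apply Finset.sum_le_sum
        intro z _
        by_cases hr : RH (Near S h κ) x y z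
        · rw [if_pos hr, if_pos hr.1, if_pos hr.2.1]; norm_num
        · rw [if_neg hr]
          split_ifs <;> norm_num
    _ = (ndeg S h κ x : ℝ) * (ndeg S h κ x : ℝ) := by
        rw [← Finset.sum_mul_sum, e]
    _ ≤ 6 * 6 := mul_le_mul h6 h6 h0 (by norm_num)
    _ = 36 := by norm_num

/-- TASK G (file GSum.lean) -/
theorem GG_sum {S : Finset ℍ} {h κ : ℝ} (H : Hyp S h κ)
    (deg6 : ∀ x ∈ S, ndeg S h κ x ≤ 6)
    (common : ∀ y z a b c, y ≠ z → a ≠ b → a ≠ c → b ≠ c → Near S h κ y a → Near S h κ z a →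
      Near S h κ y b → Near S h κ z b → Near S h κ y c → Near S h κ z c → False) :
    |∑ x ∈ S, GG S h κ x| ≤ 1 / 10 ^ 25 * (S.card : ℝ) := by
  classical
  let f : ℍ → ℍ → ℍ → ℍ → ℝ := fun x y w z =>
    if Rh4 (Near S h κ) x y w z then π / 2 - ang h x y z else 0
  have e1 : ∑ x ∈ S, GG S h κ x = ∑ x ∈ S, ∑ y ∈ S, ∑ z ∈ S, ∑ w ∈ S, f x y w z := by
    apply Finset.sum_congr rfl
    intro x _
    unfold GG
    apply Finset.sum_congr rfl
    intro y _
    apply Finset.sum_congr rfl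
    intro z _
    exact RH_sum_w common x y z _
  have e2 : ∑ x ∈ S, ∑ y ∈ S, ∑ z ∈ S, ∑ w ∈ S, f x y w z =
      ∑ x ∈ S, ∑ y ∈ S, ∑ z ∈ S, ∑ w ∈ S, f y x z w := by
    rw [Finset.sum_comm]
    apply Finset.sum_congr rfl
    intro y _
    apply Finset.sum_congr rfl
    intro x _
    rw [Finset.sum_comm]
  have e3 : |2 * ∑ x ∈ S, GG S h κ x| ≤
      ∑ x ∈ S, ∑ y ∈ S, ∑ z ∈ S, ∑ w ∈ S,
        (if Rh4 (Near S h κ) x y w z then (1 : ℝ) / 10 ^ 27 else 0) := by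
    have : 2 * ∑ x ∈ S, GG S h κ x =
        ∑ x ∈ S, ∑ y ∈ S, ∑ z ∈ S, ∑ w ∈ S, (f x y w z + f y x z w) := by
      simp only [Finset.sum_add_distrib]
      rw [two_mul]
      nth_rw 1 [e1]
      rw [e1, e2]
    rw [this]
    refine (Finset.abs_sum_le_sum_abs _ _).trans (Finset.sum_le_sum fun x _ => ?_)
    refine (Finset.abs_sum_le_sum_abs _ _).trans (Finset.sum_le_sum fun y _ => ?_)
    refine (Finset.abs_sum_le_sum_abs _ _).trans (Finset.sum_le_sum fun z _ => ?_)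
    refine (Finset.abs_sum_le_sum_abs _ _).trans (Finset.sum_le_sum fun w _ => ?_)
    simp only [f]
    by_cases hr : Rh4 (Near S h κ) x y w z
    · rw [if_pos hr, if_pos (rh4_swap hr), if_pos hr]
      have := rh4_angle H hr
      have e : π / 2 - ang h x y z + (π / 2 - ang h y x w) = π - ang h x y z - ang h y x w := by
        ring
      rw [e]
      exact this
    · rw [if_neg hr, if_neg (fun h4 => hr (rh4_swap h4)), if_neg hr]
      norm_num
  have e4 : ∑ x ∈ S, ∑ y ∈ S, ∑ z ∈ S, ∑ w ∈ S,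
        (if Rh4 (Near S h κ) x y w z then (1 : ℝ) / 10 ^ 27 else 0) ≤
      ∑ x ∈ S, 1 / 10 ^ 27 * 36 := by
    apply Finset.sum_le_sum
    intro x hx
    calc ∑ y ∈ S, ∑ z ∈ S, ∑ w ∈ S,
        (if Rh4 (Near S h κ) x y w z then (1 : ℝ) / 10 ^ 27 else 0)
        = ∑ y ∈ S, ∑ z ∈ S, 1 / 10 ^ 27 * (if RH (Near S h κ) x y z then (1 : ℝ) else 0) := by
          apply Finset.sum_congr rfl
          intro y _
          apply Finset.sum_congr rfl
          intro z _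
          rw [← RH_sum_w common x y z]
          split_ifs <;> ring
      _ = 1 / 10 ^ 27 * ∑ y ∈ S, ∑ z ∈ S, (if RH (Near S h κ) x y z then (1 : ℝ) else 0) := by
          simp only [Finset.mul_sum]
      _ ≤ _ := mul_le_mul_of_nonneg_left (RH_count deg6 x hx) (by norm_num)
  rw [Finset.sum_const, nsmul_eq_mul] at e4
  have e5 := e3.trans e4
  rw [abs_mul, abs_of_nonneg (by norm_num : (0:ℝ) ≤ 2)] at e5
  have hc : (0 : ℝ) ≤ (S.card : ℝ) := Nat.cast_nonneg _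
  have : (S.card : ℝ) * (1 / 10 ^ 27 * 36) ≤ 2 * (1 / 10 ^ 25 * (S.card : ℝ)) := by
    have h9 : (1 : ℝ) / 10 ^ 27 * 36 ≤ 2 * (1 / 10 ^ 25) := by norm_num
    calc (S.card : ℝ) * (1 / 10 ^ 27 * 36) ≤ (S.card : ℝ) * (2 * (1 / 10 ^ 25)) :=
          mul_le_mul_of_nonneg_left h9 hc
      _ = _ := by ring
  linarith

theorem GG_lower {S : Finset ℍ} {h κ : ℝ} (H : Hyp S h κ)
    (deg6 : ∀ x ∈ S, ndeg S h κ x ≤ 6) (x : ℍ) (hx : x ∈ S) : -100 ≤ GG S h κ x := by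
  classical
  have h1 : ∑ y ∈ S, ∑ z ∈ S, (-2) * (if RH (Near S h κ) x y z then (1 : ℝ) else 0) ≤
      GG S h κ x := by
    unfold GG
    apply Finset.sum_le_sum
    intro y _
    apply Finset.sum_le_sum
    intro z _
    split_ifs
    · have h2 : ang h x y z ≤ π := angle_le_pi _ _
      have := Real.pi_le_four
      linarith
    · norm_num
  have h2 := RH_count deg6 x hx
  simp only [← Finset.mul_sum] at h1
  linarith

end Pool.Agent.HypPack
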