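import Pool.Agent.Lib.MP_11f292_co.Mg.G004
import Pool.Agent.Lib.MP_11f292_co.Mg.G001
import Pool.Agent.Lib.MP_11f292_co.Mg.G003
import Pool.Agent.Lib.MP_11f292_co.GSum

set_option autoImplicit false
open scoped Real UpperHalfPlane

namespace Pool.Agent.HypPack

theorem main_bound (S : Finset ℍ) (h κ : ℝ) (H : Hyp S h κ) :
    (S.card : ℝ) ≤ 10 ^ 26 * (∑ x ∈ S, (5 - (cdeg S h x : ℝ)) + 7 * (interCard S h κ : ℝ)) := by
  have deg6 := fun x hx => ndeg_le_six H (S := S) x hx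
  have cov := cover_bound deg6 (GG_sum H deg6 (common_near H)) (GG_lower H deg6)
    (GG_clean H) (no_good (local_facts H (hole_lemma H)))
  have bad := bad_card deg6 (common_near H) (fun x _ h6 => six_rim H x h6) H.kpos
  have hI : (0 : ℝ) ≤ (interCard S h κ : ℝ) := by positivity
  have hpos : (0:ℝ) ≤ 2 * ∑ x ∈ S, (5 - (cdeg S h x : ℝ)) + 13 * (interCard S h κ : ℝ) :=
    le_trans (by positivity) bad
  nlinarith

theorem main_thm :
    ∃ c : ℝ, c < 5 ∧ ∃ r₀ : ℝ, 0 < r₀ ∧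
      ∀ r : ℝ, 0 < r → r < r₀ →
        ∀ S : Finset UpperHalfPlane,
          (∀ x ∈ S, ∀ y ∈ S, x ≠ y → 2 * r ≤ dist x y) →
            (∑ x ∈ S, ((S.filter (fun y => dist x y = 2 * r)).card : ℝ))
              ≤ c * (S.card : ℝ) :=
  final (fun _ _ _ H x hx => ndeg_le_six H x hx) (10 ^ 26) (by norm_num) main_bound

end Pool.Agent.HypPack
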